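import Pool.Agent.J6H83.Sf.Top

/-!
MP_19ffc6_ag: resolution of the quotients of the product of a surface and a space of matrices (and
more generally of an affine variety with a torus action of complexity two and a space of matrices)
by finite affine groups, the translations of which are functions on the surface.
-/

set_option autoImplicit false

open AlgebraicGeometry CategoryTheory MvPolynomial Pool.Agent.H920R2

universe u

namespace Pool.Agent.Results.MP_19ffc6_ag.AffineGroupsOverSurfaces

/-- The field `E` is the function field of a smooth projective variety over `k`, given by the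
homogeneous coordinates `H 0, ..., H N`: the standard charts, the spectra of the rings
`k[H 0 / H i, ..., H N / H i]`, are smooth over `k` with the field of fractions `E`. -/
def HasSmoothProjectiveModel (k E : Type u) [Field k] [Field E] [Algebra k E] : Prop :=
  ∃ (N : ℕ) (H : Fin (N + 1) → E), (∀ i, H i ≠ 0) ∧
    ∀ i, Algebra.Smooth k (Algebra.adjoin k (Set.range fun j => H j / H i)) ∧
      ∀ x : E, ∃ a ∈ Algebra.adjoin k (Set.range fun j => H j / H i),
        ∃ b ∈ Algebra.adjoin k (Set.range fun j => H j / H i), b ≠ 0 ∧ x = a * b⁻¹

/-- The matrices `g` with `g_(i, j) = 0` if the level `lv i` is smaller than the level `lv j`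
(the block triangular matrices with respect to the levels), and with `g_(i, i) ^ s_i = 1` for all
`i` which are alone in their level. -/
def IsLevelTriangular {F : Type} [Field F] {n : ℕ} (lv s : Fin n → ℕ)
    (g : Matrix (Fin n) (Fin n) F) : Prop :=
  (∀ i j, lv i < lv j → g i j = 0) ∧ ∀ i, (∀ j, lv j = lv i → j = i) → g i i ^ s i = 1

section group

variable (F : Type) [Field F] [Fintype F] (k : Type u) [Field k] [Algebra F k] {A : Type u}
  [CommRing A] [Algebra k A] {n m : ℕ} (lv s : Fin n → ℕ) (W : AddSubgroup (Fin m → A))

/-- The automorphisms of the polynomial ring over `A` in the entries `X (i, l)` of an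
`n × m`-matrix (the automorphisms over `S = Spec A` of the product of `S` and the space of the
`n × m`-matrices) of the form `X ↦ g X + v`, where `g` is an invertible level triangular matrix
over `F` and `v` is a matrix the rows of which are in `W`. -/
def IsTransformation
    (σ : MvPolynomial (Fin n × Fin m) A ≃ₐ[A] MvPolynomial (Fin n × Fin m) A) : Prop :=
  ∃ g : Matrix.GeneralLinearGroup (Fin n) F,
    IsLevelTriangular lv s (g : Matrix (Fin n) (Fin n) F) ∧
    ∃ v : Fin n → Fin m → A, (∀ i, v i ∈ W) ∧
      ∀ i l, σ (X (i, l)) = ∑ j, C (algebraMap k A (algebraMap F k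
        ((g : Matrix (Fin n) (Fin n) F) i j))) * X (j, l) + C (v i l)

/-- The functions on the product of `S` and the space of the `n × m`-matrices which are invariant
under these automorphisms. -/
def invariants : Subalgebra k (MvPolynomial (Fin n × Fin m) A) where
  carrier := {f | ∀ σ, IsTransformation F k lv s W σ → σ f = f}
  mul_mem' := fun {a b} ha hb σ hσ => by rw [map_mul, ha σ hσ, hb σ hσ]
  add_mem' := fun {a b} ha hb σ hσ => by rw [map_add, ha σ hσ, hb σ hσ]
  algebraMap_mem' := fun c σ _ => by
    rw [IsScalarTower.algebraMap_apply k A (MvPolynomial (Fin n × Fin m) A)]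
    exact AlgEquiv.commutes σ _

/-- The quotient of the product of `S` and the space of the `n × m`-matrices. -/
noncomputable def quot : Scheme.{u} := Spec (CommRingCat.of (invariants F k lv s W))

/-- The structure morphism of the quotient. -/
noncomputable def quotStr : quot F k lv s W ⟶ Spec (CommRingCat.of k) :=
  Spec.map (CommRingCat.ofHom (algebraMap k (invariants F k lv s W)))

end group

/-- Let `F` be a finite field with `q` elements, `k` a perfect field which contains `F`, and let
`S = Spec A` be an affine variety over `k` with an action of a torus of dimension `r`, given by a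
grading of `A` by `ℤ ^ r`, such that the field of the homogeneous fractions of degree zero has the
transcendence degree two over `k` and is the function field of a smooth projective surface (for
`r = 0` this means that `S` is any affine surface). Let `n ≥ 0`, `m > 0`, and let
`W` be a finite set of vectors of length `m` with entries in `A` which is closed under addition
and under multiplication by the elements of `F`, such that the `l`-th coordinates of all elements
of `W` are homogeneous of the same degree `a l` (no condition for `r = 0`). Let `lv i`, `i < n`, be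
levels and `s i` divisors of `q - 1`. Then the automorphisms `(t, x) ↦ (t, g x + v(t))` of the
product of `S` and the space of the `n × m`-matrices, where `g` is an invertible matrix over `F`
which is block triangular with respect to the levels, with `g_(i, i) ^ s_i = 1` for all `i` which
are alone in their level, and where the rows of `v` are in `W`, form a finite group, and the
quotient of the product by this group is a variety and has a resolution of singularities. -/
theorem result (F : Type) [Field F] [Fintype F] (k : Type u) [Field k] [PerfectField k]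
    [Algebra F k] (A : Type u) [CommRing A] [IsDomain A] [Algebra k A] [Algebra.FiniteType k A]
    (r : ℕ) (𝒜 : (Fin r → ℤ) → Submodule k A) [GradedAlgebra 𝒜]
    (h2 : Algebra.trdeg k (Pool.Agent.W558.homFrac 𝒜) = 2)
    (hM : HasSmoothProjectiveModel k (Pool.Agent.W558.homFrac 𝒜))
    (n m : ℕ) (hm : 0 < m) (lv s : Fin n → ℕ) (hs : ∀ i, s i ∣ Fintype.card F - 1)
    (W : AddSubgroup (Fin m → A)) (hW : Finite W)
    (hWF : ∀ (c : F), ∀ w ∈ W, (fun l => algebraMap k A (algebraMap F k c) * w l) ∈ W)
    (a : Fin m → Fin r → ℤ) (ha : ∀ w ∈ W, ∀ l, w l ∈ 𝒜 (a l)) :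
    (∃ G : Subgroup (MvPolynomial (Fin n × Fin m) A ≃ₐ[A] MvPolynomial (Fin n × Fin m) A),
      Finite G ∧ ∀ σ, σ ∈ G ↔ IsTransformation F k lv s W σ) ∧
    IsVariety (quotStr F k lv s W) ∧
    ∃ (Z : Scheme.{u}) (π : Z ⟶ quot F k lv s W),
      AlgebraicGeometry.IsIntegral Z ∧ AlgebraicGeometry.IsProper π ∧
      AlgebraicGeometry.Smooth (π ≫ quotStr F k lv s W) ∧
      ∃ U : (quot F k lv s W).Opens,
        Dense (U : Set (quot F k lv s W)) ∧ IsIso (π ∣_ U) := by
  let _ : Algebra F A := ((algebraMap k A).comp (algebraMap F k)).toAlgebra
  have _ : IsScalarTower F k A := IsScalarTower.of_algebraMap_eq fun _ => rfl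
  let W' : Submodule F (Fin m → A) :=
    { W with
      smul_mem' := fun c w hw => by
        have h1 : c • w = fun l => algebraMap k A (algebraMap F k c) * w l := by
          funext l
          rw [Pi.smul_apply, Algebra.smul_def]
          rfl
        rw [h1]
        exact hWF c w hw }
  have _ : Finite W' := hW
  have hiff : ∀ σ, σ ∈ Pool.Agent.J6H83.Sf.AffA.affGrp (n := n) lv s W' ↔
      IsTransformation F k lv s W σ := by
    intro σ
    constructor
    · rintro ⟨g, hg, v, hv, h⟩
      refine ⟨g, hg, v, hv, fun i l => ?_⟩
      have h1 : σ (X (i, l)) = Pool.Agent.J6H83.Sf.AffA.aff (g : Matrix (Fin n) (Fin n) F) v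
          (X (i, l)) := congrArg (fun φ => φ (X (i, l))) h
      rw [h1, Pool.Agent.J6H83.Sf.AffA.aff_X]
      rfl
    · rintro ⟨g, hg, v, hv, h⟩
      refine ⟨g, hg, v, hv, ?_⟩
      apply MvPolynomial.algHom_ext
      rintro ⟨i, l⟩
      rw [Pool.Agent.J6H83.Sf.AffA.aff_X]
      exact h i l
  have hinv : invariants F k (n := n) lv s W = Pool.Agent.J6H83.Sf.InvA k lv s W' := by
    ext f
    constructor
    · exact fun h σ hσ => h σ ((hiff σ).1 hσ)
    · exact fun h σ hσ => h σ ((hiff σ).2 hσ)
  refine ⟨⟨_, Pool.Agent.J6H83.Sf.AffA.finite_affGrp lv s W', hiff⟩, ?_⟩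
  have hft := Pool.Agent.J6H83.Sf.finiteType_InvA (n := n) k lv s W'
  have hres := Pool.Agent.J6H83.Sf.main (n := n) k 𝒜 h2 (by
    obtain ⟨N, H, h0, h1⟩ := hM
    exact ⟨N, H, h0, fun i => ⟨(h1 i).1, (h1 i).2⟩⟩) hm lv s hs W' a ha
  have hvar : IsVariety (X := Spec (CommRingCat.of (Pool.Agent.J6H83.Sf.InvA k (n := n) lv s W')))
      (Spec.map (CommRingCat.ofHom (algebraMap k (Pool.Agent.J6H83.Sf.InvA k (n := n) lv s W')))) :=
    isVariety_spec
  unfold quotStr quot
  rw [hinv]
  exact ⟨hvar, hres⟩

end Pool.Agent.Results.MP_19ffc6_ag.AffineGroupsOverSurfaces
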