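import Pool.Agent.J6H83.Dv.Top

/-!
MP_19ffc6_ag: resolution of the quotients of the generic determinantal varieties by finite groups of
block triangular matrices over finite fields.
-/

set_option autoImplicit false

open AlgebraicGeometry CategoryTheory MvPolynomial Pool.Agent.H920R2

universe u

namespace Pool.Agent.Results.MP_19ffc6_ag.DeterminantalQuotients

/-- The ideal of the determinantal variety of the `n × m`-matrices of rank at most `ρ`: the
polynomials over `k` in the entries of an `n × m`-matrix which vanish at all matrices of rank at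
most `ρ` with entries in any extension field of `k`. -/
def rankIdeal (k : Type u) [Field k] (n m ρ : ℕ) : Ideal (MvPolynomial (Fin n × Fin m) k) where
  carrier := {f | ∀ (K : Type u) [Field K] [Algebra k K] (M : Matrix (Fin n) (Fin m) K),
    M.rank ≤ ρ → aeval (fun v : Fin n × Fin m => M v.1 v.2) f = 0}
  add_mem' := (Pool.Agent.J6H83.Dv.lowI k n m ρ).add_mem'
  zero_mem' := (Pool.Agent.J6H83.Dv.lowI k n m ρ).zero_mem'
  smul_mem' := (Pool.Agent.J6H83.Dv.lowI k n m ρ).smul_mem'

/-- The coordinate ring of the determinantal variety of the `n × m`-matrices of rank at most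
`ρ`. -/
abbrev coordinateRing (k : Type u) [Field k] (n m ρ : ℕ) : Type u :=
  MvPolynomial (Fin n × Fin m) k ⧸ rankIdeal k n m ρ

/-- The matrices `g` with `g_(i, j) = 0` if the level `lv i` is smaller than the level `lv j`
(the block triangular matrices with respect to the levels), and with `g_(i, i) ^ s_i = 1` for all
`i` which are alone in their level. -/
def IsLevelTriangular {F : Type} [Field F] {n : ℕ} (lv s : Fin n → ℕ)
    (g : Matrix (Fin n) (Fin n) F) : Prop :=
  (∀ i j, lv i < lv j → g i j = 0) ∧ ∀ i, (∀ j, lv j = lv i → j = i) → g i i ^ s i = 1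

section defs

variable {F : Type} [Field F] (k : Type u) [Field k] [Algebra F k] {n : ℕ} (m ρ : ℕ)

/-- The substitution `x ↦ g x`, that is `x_(i, l) ↦ ∑ j, g_(i, j) * x_(j, l)`, in the polynomial
ring `k[x_(i, l)]` in the entries of an `n × m`-matrix `x`. -/
noncomputable def subst (g : Matrix (Fin n) (Fin n) F) :
    MvPolynomial (Fin n × Fin m) k →ₐ[k] MvPolynomial (Fin n × Fin m) k :=
  aeval fun u => ∑ j, C (algebraMap F k (g u.1 j)) * X (j, u.2)

/-- The polynomials whose restrictions to the determinantal variety are invariant under the group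
`Γ` of the invertible level triangular matrices over `F`. -/
noncomputable def invariantPolynomials (lv s : Fin n → ℕ) :
    Subalgebra k (MvPolynomial (Fin n × Fin m) k) where
  carrier := {f | ∀ g : Matrix.GeneralLinearGroup (Fin n) F,
    IsLevelTriangular lv s (g : Matrix (Fin n) (Fin n) F) →
      subst k m (g : Matrix (Fin n) (Fin n) F) f - f ∈ rankIdeal k n m ρ}
  mul_mem' := (Pool.Agent.J6H83.Dv.pre F k n m ρ lv s).mul_mem'
  add_mem' := (Pool.Agent.J6H83.Dv.pre F k n m ρ lv s).add_mem'
  algebraMap_mem' := (Pool.Agent.J6H83.Dv.pre F k n m ρ lv s).algebraMap_mem'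

/-- The algebra of the functions on the determinantal variety which are invariant under `Γ`. -/
noncomputable def invariants (F : Type) [Field F] (k : Type u) [Field k] [Algebra F k]
    {n : ℕ} (m ρ : ℕ) (lv s : Fin n → ℕ) : Subalgebra k (coordinateRing k n m ρ) :=
  (invariantPolynomials (F := F) k m ρ lv s).map (Ideal.Quotient.mkₐ k (rankIdeal k n m ρ))

end defs

/-- The quotient of the determinantal variety by `Γ`. -/
noncomputable def quot (F : Type) [Field F] (k : Type u) [Field k] [Algebra F k]
    {n : ℕ} (m ρ : ℕ) (lv s : Fin n → ℕ) : Scheme.{u} :=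
  Spec (CommRingCat.of (invariants F k m ρ lv s))

/-- The structure morphism of the quotient. -/
noncomputable def quotStr (F : Type) [Field F] (k : Type u) [Field k] [Algebra F k]
    {n : ℕ} (m ρ : ℕ) (lv s : Fin n → ℕ) : quot F k m ρ lv s ⟶ Spec (CommRingCat.of k) :=
  Spec.map (CommRingCat.ofHom (algebraMap k (invariants F k m ρ lv s)))

/-- Let `F` be a finite field with `q` elements, `k` a field which contains `F`, and
`0 < ρ ≤ n, m`. Let `lv i`, `i < n`, be levels and `s i` divisors of `q - 1`, and let `Γ` be the
finite group of the invertible `n × n`-matrices `g` over `F` which are block triangular with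
respect to the levels, with `g_(i, i) ^ s_i = 1` for all `i` which are alone in their level. It acts
by left multiplication on the determinantal variety of the `n × m`-matrices over `k` of rank at
most `ρ`. The quotient of this variety by `Γ` is a variety and has a resolution of
singularities. -/
theorem result (F : Type) [Field F] [Fintype F] (k : Type u) [Field k] [Algebra F k]
    (n m ρ : ℕ) (hρ : 0 < ρ) (hn : ρ ≤ n) (hm : ρ ≤ m) (lv s : Fin n → ℕ)
    (hs : ∀ i, s i ∣ Fintype.card F - 1) :
    IsVariety (quotStr F k m ρ lv s) ∧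
    ∃ (Y : Scheme.{u}) (π : Y ⟶ quot F k m ρ lv s),
      AlgebraicGeometry.IsIntegral Y ∧ AlgebraicGeometry.IsProper π ∧
      AlgebraicGeometry.Smooth (π ≫ quotStr F k m ρ lv s) ∧
      ∃ U : (quot F k m ρ lv s).Opens,
        Dense (U : Set (quot F k m ρ lv s)) ∧ IsIso (π ∣_ U) := by
  obtain ⟨c, rfl⟩ := Nat.exists_eq_add_of_le hm
  have h0 := Pool.Agent.J6H83.Dv.isDomain_AA (F := F) (k := k) (ρ := ρ) (c := c) lv s
  have h1 : Algebra.FiniteType k (Pool.Agent.J6H83.Dv.AA F k n (ρ + c) ρ lv s) :=
    Pool.Agent.J6H83.Dv.finiteType_AA (ρ + c) lv s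
  have h2 : IsVariety
      (X := Spec (CommRingCat.of (Pool.Agent.J6H83.Dv.AA F k n (ρ + c) ρ lv s)))
      (Spec.map (CommRingCat.ofHom (algebraMap k
        (Pool.Agent.J6H83.Dv.AA F k n (ρ + c) ρ lv s)))) :=
    isVariety_spec
  exact ⟨h2, Pool.Agent.J6H83.Dv.main hρ hn lv s hs⟩

end Pool.Agent.Results.MP_19ffc6_ag.DeterminantalQuotients
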