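import Pool.Agent.J6H83.Nr.Top
import Pool.Agent.J6H83.Nr.Grp

/-!
MP_19ffc6_ag: resolution of the quotients of the cones over the smooth subvarieties of the
Grassmannians by nonreduced finite group schemes, the inverse images of finite groups of block
triangular matrices under the powers of the Frobenius of `GL_n`.
-/

set_option autoImplicit false

open AlgebraicGeometry CategoryTheory MvPolynomial Pool.Agent.H920R2

universe u

namespace Pool.Agent.Results.MP_19ffc6_ag.NonreducedGroupQuotients

section grassmannian

variable (k : Type u) [Field k] {E : Type u} [Field E] [Algebra k E] {ρ m : ℕ}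
  (w : Matrix (Fin ρ) (Fin m) E)

/-- The coordinate ring of a standard chart of the closure `Y` of the point of the Grassmannian of
the subspaces of dimension `ρ` of `k ^ m` given by the row space of `w`: the subalgebra of `E`
generated by the entries of the matrix `w_e⁻¹ w`, where `w_e` is the submatrix of `w` with the
columns `e 1, ..., e ρ` (with nonzero determinant). -/
noncomputable def chartRing (e : Fin ρ → Fin m) : Subalgebra k E :=
  Algebra.adjoin k (Set.range fun u : Fin ρ × Fin m => ((w.submatrix id e)⁻¹ * w) u.1 u.2)

/-- The rows of `w` span the generic subspace of a smooth closed subvariety `Y` of the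
Grassmannian with the function field `E`. -/
def IsGenericPoint : Prop :=
  (∃ e : Fin ρ → Fin m, (w.submatrix id e).det ≠ 0) ∧
  ∀ e : Fin ρ → Fin m, (w.submatrix id e).det ≠ 0 →
    IntermediateField.adjoin k (chartRing k w e : Set E) = ⊤ ∧ Algebra.Smooth k (chartRing k w e)

/-- The matrix `t w` for the generic `n × ρ`-matrix `t`. -/
noncomputable def genericMatrix (n : ℕ) {E : Type u} [Field E] {ρ m : ℕ}
    (w : Matrix (Fin ρ) (Fin m) E) :
    Matrix (Fin n) (Fin m) (MvPolynomial (Fin n × Fin ρ) E) :=
  Matrix.of fun i j => ∑ l, X (i, l) * C (w l j)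

/-- The value of a polynomial in the entries of an `n × m`-matrix at a matrix `x`. -/
noncomputable def value {k : Type u} [Field k] {n m : ℕ} {R : Type u} [CommRing R] [Algebra k R]
    (x : Matrix (Fin n) (Fin m) R) : MvPolynomial (Fin n × Fin m) k →ₐ[k] R :=
  aeval fun u => x u.1 u.2

/-- The ideal of the cone `X` of the `n × m`-matrices whose row spaces are contained in a member of
`Y`: the polynomials which vanish at `t w`. -/
noncomputable def coneIdeal (n : ℕ) : Ideal (MvPolynomial (Fin n × Fin m) k) :=
  RingHom.ker (value (k := k) (genericMatrix n w))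

/-- The coordinate ring of the cone `X`. -/
abbrev coordinateRing (n : ℕ) : Type u := MvPolynomial (Fin n × Fin m) k ⧸ coneIdeal k w n

end grassmannian

/-- The matrices `g` with `g_(i, j) = 0` if the level `lv i` is smaller than the level `lv j`
(the block triangular matrices with respect to the levels), and with `g_(i, i) ^ s_i = 1` for all
`i` which are alone in their level. -/
def IsLevelTriangular {F : Type} [Field F] {n : ℕ} (lv s : Fin n → ℕ)
    (g : Matrix (Fin n) (Fin n) F) : Prop :=
  (∀ i j, lv i < lv j → g i j = 0) ∧ ∀ i, (∀ j, lv j = lv i → j = i) → g i i ^ s i = 1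

/-- The `R`-valued points (if `Spec R` is connected) of the finite group scheme `G`, the inverse
image of the constant group `Γ` of the invertible level triangular matrices over `F` under the
`r`-th power of the Frobenius `g ↦ (g_(i, j) ^ p)` of `GL_n`. -/
def IsPoint (F : Type) [Field F] (k : Type u) [Field k] [Algebra F k] (p r : ℕ) {n : ℕ}
    (lv s : Fin n → ℕ) {R : Type u} [CommRing R] [Algebra k R]
    (g : Matrix (Fin n) (Fin n) R) : Prop :=
  ∃ γ : Matrix.GeneralLinearGroup (Fin n) F,
    IsLevelTriangular lv s (γ : Matrix (Fin n) (Fin n) F) ∧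
    ∀ i j, g i j ^ (p ^ r) = algebraMap k R (algebraMap F k ((γ : Matrix (Fin n) (Fin n) F) i j))

section invariants

variable (F : Type) [Field F] [Fintype F] (k : Type u) [Field k] [Algebra F k]
  {E : Type u} [Field E] [Algebra k E] {n ρ m : ℕ} (p r : ℕ) (w : Matrix (Fin ρ) (Fin m) E)
  (lv s : Fin n → ℕ)

/-- The polynomials whose restrictions to the cone `X` are invariant under `G`: those `f` with
`f (g x) = f x` for all points `x` of the cone and all points `g` of `G` with values in any
`k`-algebra. -/
noncomputable def invariantPolynomials : Subalgebra k (MvPolynomial (Fin n × Fin m) k) where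
  carrier := {f | ∀ (R : Type u) [CommRing R] [Algebra k R] (x : Matrix (Fin n) (Fin m) R)
    (g : Matrix (Fin n) (Fin n) R), (∀ h ∈ coneIdeal k w n, value x h = 0) →
      IsPoint F k p r lv s g → value (g * x) f = value x f}
  mul_mem' := by
    intro a b ha hb R _ _ x g hx hg
    rw [map_mul, map_mul, ha R x g hx hg, hb R x g hx hg]
  add_mem' := by
    intro a b ha hb R _ _ x g hx hg
    rw [map_add, map_add, ha R x g hx hg, hb R x g hx hg]
  algebraMap_mem' := by
    intro a R _ _ x g _ _
    rw [AlgHom.commutes, AlgHom.commutes]

/-- The algebra of the functions on the cone `X` which are invariant under `G`. -/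
noncomputable def invariants : Subalgebra k (coordinateRing k w n) :=
  (invariantPolynomials F k p r w lv s).map (Ideal.Quotient.mkₐ k (coneIdeal k w n))

/-- The quotient of the cone `X` by `G`. -/
noncomputable def quot : Scheme.{u} := Spec (CommRingCat.of (invariants F k p r w lv s))

/-- The structure morphism of the quotient. -/
noncomputable def quotStr : quot F k p r w lv s ⟶ Spec (CommRingCat.of k) :=
  Spec.map (CommRingCat.ofHom (algebraMap k (invariants F k p r w lv s)))

end invariants

/-- Let `F` be a finite field with `q` elements, `k` a field of characteristic `p` which contains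
`F`, `0 < ρ ≤ n`, and let `Y` be a smooth closed subvariety of the Grassmannian of the subspaces
of dimension `ρ` of `k ^ m`, with the function field `E` and the generic subspace spanned by the
rows of a matrix `w` over `E`. Let `X` be the closed subvariety of the space of the
`n × m`-matrices of the matrices whose row spaces are contained in a member of `Y`. Let `lv i`,
`i < n`, be levels, `s i` divisors of `q - 1`, and let `Γ` be the group of the invertible
`n × n`-matrices `g` over `F` which are block triangular with respect to the levels, with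
`g_(i, i) ^ s_i = 1` for all `i` which are alone in their level. Let `r ≥ 1` and let `G` be the
(nonreduced) finite group scheme of the matrices `g` with `(g_(i, j) ^ (p ^ r)) ∈ Γ`, an extension
of `Γ` by the `r`-th Frobenius kernel of `GL_n`. Then the quotient of `X` by the action of `G` by
left multiplication is a variety and has a resolution of singularities. -/
theorem result (p r : ℕ) [Fact p.Prime] (hr : 1 ≤ r) (F : Type) [Field F] [Fintype F]
    (k : Type u) [Field k] [CharP k p] [Algebra F k] (E : Type u) [Field E] [Algebra k E]
    (n m ρ : ℕ) (hρ : 0 < ρ) (hn : ρ ≤ n) (w : Matrix (Fin ρ) (Fin m) E)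
    (hw : IsGenericPoint k w) (lv s : Fin n → ℕ) (hs : ∀ i, s i ∣ Fintype.card F - 1) :
    (∀ (R : Type u) [CommRing R] [Algebra k R],
      ∃ G : Subgroup (Matrix.GeneralLinearGroup (Fin n) R), ∀ g : Matrix (Fin n) (Fin n) R,
        IsPoint F k p r lv s g ↔ ∃ a ∈ G, (a : Matrix (Fin n) (Fin n) R) = g) ∧
    IsVariety (quotStr F k p r w lv s) ∧
    ∃ (Z : Scheme.{u}) (π : Z ⟶ quot F k p r w lv s),
      AlgebraicGeometry.IsIntegral Z ∧ AlgebraicGeometry.IsProper π ∧
      AlgebraicGeometry.Smooth (π ≫ quotStr F k p r w lv s) ∧
      ∃ U : (quot F k p r w lv s).Opens,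
        Dense (U : Set (quot F k p r w lv s)) ∧ IsIso (π ∣_ U) := by
  have _ := hr
  let _ : Algebra F E := ((algebraMap k E).comp (algebraMap F k)).toAlgebra
  have _ : IsScalarTower F k E := IsScalarTower.of_algebraMap_eq fun _ => rfl
  have hcE : CharP E p := charP_of_injective_algebraMap (algebraMap k E).injective p
  refine ⟨fun R _ _ => Pool.Agent.J6H83.Nr.exists_grp (F := F) k p r R lv s, ?_⟩
  have h0 := Pool.Agent.J6H83.Nr.isDomain_AA (F := F) (k := k) (n := n) (w := w) (p ^ r) lv s
  have h1 : Algebra.FiniteType k (Pool.Agent.J6H83.Nr.AA F k n w (p ^ r) lv s) :=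
    Pool.Agent.J6H83.Nr.finiteType_AA lv s
  have h2 : IsVariety
      (X := Spec (CommRingCat.of (Pool.Agent.J6H83.Nr.AA F k n w (p ^ r) lv s)))
      (Spec.map (CommRingCat.ofHom (algebraMap k
        (Pool.Agent.J6H83.Nr.AA F k n w (p ^ r) lv s)))) :=
    isVariety_spec
  exact ⟨h2, Pool.Agent.J6H83.Nr.main hρ hn hw.1 (fun e he => (hw.2 e he).1)
    (fun e he => (hw.2 e he).2) lv s hs⟩

end Pool.Agent.Results.MP_19ffc6_ag.NonreducedGroupQuotients
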