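import Pool.Agent.J6H83.Ta.Main
import Pool.Agent.H920R2.Trans

/-!
MP_19ffc6_ag: resolution of the quotients of the product of a surface (or of a variety the function
field of which has log smooth models) and a vector group by all finite subgroup schemes of the
vector group over the surface.
-/

set_option autoImplicit false

open AlgebraicGeometry CategoryTheory MvPolynomial Pool.Agent.H920R2

universe u

namespace Pool.Agent.Results.MP_19ffc6_ag.VectorGroupQuotients

/-- The field `E` is the function field of a smooth projective variety over `k`, given by the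
homogeneous coordinates `H 0, ..., H N`: the standard charts, the spectra of the rings
`k[H 0 / H i, ..., H N / H i]`, are smooth over `k` with the field of fractions `E`. -/
def HasSmoothProjectiveModel (k E : Type u) [Field k] [Field E] [Algebra k E] : Prop :=
  ∃ (N : ℕ) (H : Fin (N + 1) → E), (∀ i, H i ≠ 0) ∧
    ∀ i, Algebra.Smooth k (Algebra.adjoin k (Set.range fun j => H j / H i)) ∧
      ∀ x : E, ∃ a ∈ Algebra.adjoin k (Set.range fun j => H j / H i),
        ∃ b ∈ Algebra.adjoin k (Set.range fun j => H j / H i), b ≠ 0 ∧ x = a * b⁻¹

section group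

variable (p : ℕ) {K : Type u} [Field K] {m : ℕ} {J : Type u}

/-- The value at `h` of the additive polynomial in `m` variables which is the sum of the
`c (l, i) * x_l ^ (p ^ i)`. -/
noncomputable def value {R : Type u} [CommRing R] [Algebra K R] (c : Fin m × ℕ →₀ K)
    (h : Fin m → R) : R :=
  c.sum fun u a => algebraMap K R a * h u.1 ^ p ^ u.2

/-- The points with values in the `K`-algebra `R` of the group scheme `H` over `K` which is the
closed subscheme of the vector group of dimension `m` given by the additive polynomials `P j`. -/
def IsPoint (P : J → (Fin m × ℕ →₀ K)) {R : Type u} [CommRing R] [Algebra K R] (h : Fin m → R) :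
    Prop :=
  ∀ j, value p (P j) h = 0

variable (k : Type u) [Field k] {A : Type u} [CommRing A] [IsDomain A] [Algebra k A]

/-- The functions `f` on the product of `S = Spec A` and the affine space with the coordinates
`x_1, ..., x_m` which are invariant under the translations by `H`, that is `f (x + h) = f (x)` for
all points `x` of the affine space and all points `h` of `H` with values in an algebra over the
function field of `S`. -/
def invariants (P : J → (Fin m × ℕ →₀ FractionRing A)) :
    Subalgebra k (MvPolynomial (Fin m) A) where
  carrier := {f | ∀ (R : Type u) [CommRing R] [Algebra (FractionRing A) R] (x h : Fin m → R),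
    IsPoint p P h →
      eval₂ ((algebraMap (FractionRing A) R).comp (algebraMap A (FractionRing A))) (x + h) f =
      eval₂ ((algebraMap (FractionRing A) R).comp (algebraMap A (FractionRing A))) x f}
  mul_mem' := fun {a b} ha hb R _ _ x h hh => by
    rw [eval₂_mul, eval₂_mul, ha R x h hh, hb R x h hh]
  add_mem' := fun {a b} ha hb R _ _ x h hh => by
    rw [eval₂_add, eval₂_add, ha R x h hh, hb R x h hh]
  algebraMap_mem' := fun c R _ _ x h _ => by
    rw [IsScalarTower.algebraMap_apply k A (MvPolynomial (Fin m) A), MvPolynomial.algebraMap_eq,
      eval₂_C, eval₂_C]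

/-- The quotient of the product of `S` and the vector group by `H`. -/
noncomputable def quot (P : J → (Fin m × ℕ →₀ FractionRing A)) : Scheme.{u} :=
  Spec (CommRingCat.of (invariants p k P))

/-- The structure morphism of the quotient. -/
noncomputable def quotStr (P : J → (Fin m × ℕ →₀ FractionRing A)) :
    quot p k P ⟶ Spec (CommRingCat.of k) :=
  Spec.map (CommRingCat.ofHom (algebraMap k (invariants p k P)))

end group

/-- Let `k` be a perfect field of characteristic `p` and let `S = Spec A` be an affine variety over
`k` which is a surface the function field of which has a smooth projective model, or (in any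
dimension) the function field of which has log smooth projective models. Let `H` be a subgroup
scheme of the vector group of dimension `m` over the function field of `S`, given by a family of
additive polynomials `P j`. Assume that `H` is finite over `S`, that is for each `l < m` the `l`-th
coordinate satisfies on `H` an equation of the form
`h_l ^ (p ^ N) + ∑_{i < N} a_i * h_l ^ (p ^ i) = 0` with functions `a_i` on `S`. Then the quotient
of the product of `S` and the affine space of dimension `m` by the translations by `H` is a variety
and has a resolution of singularities. -/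
theorem result (p : ℕ) [Fact p.Prime] (k : Type u) [Field k] [PerfectField k] [CharP k p]
    (A : Type u) [CommRing A] [IsDomain A] [Algebra k A] [Algebra.FiniteType k A]
    (hE : (Algebra.trdeg k (FractionRing A) = 2 ∧ HasSmoothProjectiveModel k (FractionRing A)) ∨
      Pool.Agent.W558.HasLogModels k (FractionRing A))
    (m : ℕ) (J : Type u) (P : J → (Fin m × ℕ →₀ FractionRing A))
    (hfin : ∀ l : Fin m, ∃ (N : ℕ) (a : Fin N → A), ∀ (R : Type u) [CommRing R]
      [Algebra (FractionRing A) R] (h : Fin m → R), IsPoint p P h →
        h l ^ p ^ N + ∑ i : Fin N, algebraMap (FractionRing A) R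
          (algebraMap A (FractionRing A) (a i)) * h l ^ p ^ (i : ℕ) = 0) :
    IsVariety (quotStr p k P) ∧
    ∃ (Z : Scheme.{u}) (π : Z ⟶ quot p k P),
      AlgebraicGeometry.IsIntegral Z ∧ AlgebraicGeometry.IsProper π ∧
      AlgebraicGeometry.Smooth (π ≫ quotStr p k P) ∧
      ∃ U : (quot p k P).Opens,
        Dense (U : Set (quot p k P)) ∧ IsIso (π ∣_ U) := by
  have hc1 : CharP A p := charP_of_injective_algebraMap (algebraMap k A).injective p
  have hc : CharP (FractionRing A) p :=
    charP_of_injective_algebraMap (IsFractionRing.injective A (FractionRing A)) p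
  have hE' : Pool.Agent.W418.LCI.HasLM k (FractionRing A) := by
    rcases hE with ⟨h2, N, H, h0, h1⟩ | hE
    · exact Pool.Agent.W418.LCI.hasLM_of_surface k _ h2 ⟨N, H, h0, fun i => ⟨(h1 i).1, (h1 i).2⟩⟩
    · exact Pool.Agent.W418.LCI.hasLM_of_models k _ hE
  have hval : ∀ {R : Type u} [CommRing R] [Algebra (FractionRing A) R] (h : Fin m → R)
      (c : Fin m × ℕ →₀ FractionRing A), Pool.Agent.J6H83.Ta.av p h c = value p c h := by
    intro R _ _ h c
    unfold Pool.Agent.J6H83.Ta.av value
    rw [Finsupp.linearCombination_apply]
    exact Finsupp.sum_congr fun u _ => Algebra.smul_def _ _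
  have hpt : ∀ {R : Type u} [CommRing R] [Algebra (FractionRing A) R] (h : Fin m → R),
      Pool.Agent.J6H83.Ta.IsPt p P h ↔ IsPoint p P h := by
    intro R _ _ h
    refine forall_congr' fun j => ?_
    rw [hval]
  have hinv : invariants p k P = Pool.Agent.J6H83.Ta.Inv p k P := by
    have h1 : ∀ {R : Type u} [CommRing R] [Algebra (FractionRing A) R] (x : Fin m → R)
        (f : MvPolynomial (Fin m) A), aeval x (Pool.Agent.J6H83.Ta.mp k A m f) =
        eval₂ ((algebraMap (FractionRing A) R).comp (algebraMap A (FractionRing A))) x f := by
      intro R _ _ x f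
      rw [aeval_def]
      exact eval₂_map _ _ _ _
    ext f
    rw [Pool.Agent.J6H83.Ta.mem_Inv]
    constructor
    · intro h R _ _ x h' hh
      rw [h1, h1]
      exact h R x h' ((hpt h').1 hh)
    · intro h R _ _ x h' hh
      rw [← h1, ← h1]
      exact h R x h' ((hpt h').2 hh)
  have hmon : ∀ l, ∃ N, Pool.Agent.J6H83.Ta.MonRel p P (Pool.Agent.J6H83.Ta.bR k A) l N := by
    intro l
    obtain ⟨N, a, ha⟩ := hfin l
    refine ⟨N, fun i => if h : i < N then -algebraMap A (FractionRing A) (a ⟨i, h⟩) else 0,
      fun i => ?_, ?_⟩
    · change (if h : i < N then -algebraMap A (FractionRing A) (a ⟨i, h⟩) else 0) ∈ _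
      split_ifs with h
      · exact Subalgebra.neg_mem _ ⟨_, rfl⟩
      · exact Subalgebra.zero_mem _
    · intro R _ _ h hh
      have h1 := ha R h ((hpt h).1 hh)
      rw [map_sub, map_sum, Pool.Agent.J6H83.Ta.av_single, one_smul, sub_eq_add_neg,
        ← Finset.sum_neg_distrib]
      refine Eq.trans ?_ h1
      congr 1
      rw [Finset.sum_range]
      refine Finset.sum_congr rfl fun i _ => ?_
      have h2 : (if h : (i : ℕ) < N then -algebraMap A (FractionRing A) (a ⟨i, h⟩) else 0) =
          -algebraMap A (FractionRing A) (a i) := dif_pos i.2
      rw [Pool.Agent.J6H83.Ta.av_single]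
      change -((if h : (i : ℕ) < N then -algebraMap A (FractionRing A) (a ⟨i, h⟩) else 0) •
        h l ^ p ^ (i : ℕ)) = _
      rw [h2, neg_smul, neg_neg, Algebra.smul_def]
  have hft := Pool.Agent.J6H83.Ta.finiteType_Inv (k := k) P hmon
  have hres := Pool.Agent.J6H83.Ta.main (k := k) P hE' hmon
  have hvar : IsVariety (X := Spec (CommRingCat.of (Pool.Agent.J6H83.Ta.Inv p k P)))
      (Spec.map (CommRingCat.ofHom (algebraMap k (Pool.Agent.J6H83.Ta.Inv p k P)))) :=
    isVariety_spec
  unfold quotStr quot
  rw [hinv]
  exact ⟨hvar, hres⟩

end Pool.Agent.Results.MP_19ffc6_ag.VectorGroupQuotients
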